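import Mathlib

/-!
# Definitions for the vertex number of triangulations of real projective space

The first part (namespace `RPT`) fixes the objects of the final statement: the geometric
realisation of a finite abstract simplicial complex, real projective space as the quotient of the
unit sphere by the antipodal map, and the number `N d`.

The second part fixes the algebra: cochains modulo 2 are functions on lists (ordered tuples with
repetitions) of vertices.
-/

namespace RPT

open Finset

/-! ## The objects of the final statement -/

/-- The geometric realisation of an abstract simplicial complex `K` on the finite vertex set `ι`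
(every point of `ι` is a vertex of `K`): the set of all points with nonnegative coordinates of sum
one whose support is a face of `K`, with the topology induced by `ι → ℝ`. -/
def Real {ι : Type*} [Fintype ι] (K : AbstractSimplicialComplex ι) : Type _ :=
  {x : ι → ℝ // (∀ i, 0 ≤ x i) ∧ ∑ i, x i = 1 ∧ ∃ s ∈ K.faces, ∀ i, i ∈ s ↔ x i ≠ 0}

instance {ι : Type*} [Fintype ι] (K : AbstractSimplicialComplex ι) :
    TopologicalSpace (Real K) :=
  inferInstanceAs (TopologicalSpace
    {x : ι → ℝ // (∀ i, 0 ≤ x i) ∧ ∑ i, x i = 1 ∧ ∃ s ∈ K.faces, ∀ i, i ∈ s ↔ x i ≠ 0})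

/-- The unit sphere of dimension `d`. -/
abbrev Sph (d : ℕ) : Type := Metric.sphere (0 : EuclideanSpace ℝ (Fin (d + 1))) 1

/-- The antipodal relation on the unit sphere. -/
def antipodal (d : ℕ) : Setoid (Sph d) where
  r x y := x = y ∨ x = -y
  iseqv :=
    { refl := fun x => Or.inl rfl
      symm := by
        rintro x y (h | h)
        · exact Or.inl h.symm
        · exact Or.inr (by rw [h, neg_neg])
      trans := by
        rintro x y z (h | h) (h' | h')
        · exact Or.inl (h.trans h')
        · exact Or.inr (h.trans h')
        · exact Or.inr (by rw [h, h'])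
        · exact Or.inl (by rw [h, h', neg_neg]) }

/-- Real projective space of dimension `d`: the quotient of the unit sphere by the antipodal
map, with the quotient topology. -/
def RP (d : ℕ) : Type := Quotient (antipodal d)

instance (d : ℕ) : TopologicalSpace (RP d) :=
  inferInstanceAs (TopologicalSpace (Quotient (antipodal d)))

/-- `N d = (d+2 choose 2) + ⌊(d-1)/2⌋`. -/
def N (d : ℕ) : ℕ := Nat.choose (d + 2) 2 + (d - 1) / 2

/-! ## Mod 2 cochains on lists -/

variable {α : Type*}

/-- The coboundary of a cochain `g`: the value on `l` is the sum of the values of `g` on all lists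
obtained by deleting one entry of `l`. -/
def del : (List α → ZMod 2) → List α → ZMod 2
  | _, [] => 0
  | g, a :: l => g l + del (fun m => g (a :: m)) l

/-- The powers of the one-dimensional cochain `c`: the product of the values of `c` on consecutive
entries. -/
def pw (c : α → α → ZMod 2) : List α → ZMod 2
  | [] => 1
  | [_] => 1
  | a :: b :: l => c a b * pw c (b :: l)

/-- The cup product of a cochain `f` of degree `k` and a cochain `g`. -/
def cup (k : ℕ) (f g : List α → ZMod 2) (l : List α) : ZMod 2 :=
  f (l.take (k + 1)) * g (l.drop k)

/-- The triple function of `c`. -/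
def tri (c : α → α → ZMod 2) (i j k : α) : ZMod 2 := c i j + c j k + c i k

/-- Product of the cochains `tri c · · w`, `w` running over the list `ws`. -/
def pt (c : α → α → ZMod 2) : List α → List α → ZMod 2
  | w :: ws, a :: b :: l => tri c a b w * pt c ws (b :: l)
  | _, _ => 1

/-- A sign function: symmetric and zero on the diagonal. -/
structure Sgn (c : α → α → ZMod 2) : Prop where
  symm : ∀ i j, c i j = c j i
  diag : ∀ i, c i i = 0

/-- Balanced finite sets. -/
def Bal (c : α → α → ZMod 2) (S : Finset α) : Prop :=
  ∀ i ∈ S, ∀ j ∈ S, ∀ k ∈ S, tri c i j k = 0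

/-- Families of finite sets closed under passing to subsets. -/
def Down (K : Finset α → Prop) : Prop := ∀ S T, K T → S ⊆ T → K S

/-- `f` and `g` are cohomologous (degree `n`) on the complex `K`. -/
def Coh [DecidableEq α] (K : Finset α → Prop) (n : ℕ) (f g : List α → ZMod 2) : Prop :=
  ∃ h : List α → ZMod 2, ∀ l : List α, l.length = n + 1 → K l.toFinset → f l = g l + del h l

/-- The same on strictly increasing lists with respect to the rank function `r`. -/
def CohS [DecidableEq α] (r : α → ℕ) (K : Finset α → Prop) (n : ℕ)
    (f g : List α → ZMod 2) : Prop :=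
  ∃ h : List α → ZMod 2, ∀ l : List α, l.Pairwise (fun a b => r a < r b) →
    l.length = n + 1 → K l.toFinset → f l = g l + del h l

/-- Cocycles of degree `n` on `K`. -/
def Cocyc [DecidableEq α] (K : Finset α → Prop) (n : ℕ) (f : List α → ZMod 2) : Prop :=
  ∀ l : List α, l.length = n + 2 → K l.toFinset → del f l = 0

/-- The `d`-th power of the class of `c` vanishes on `K`. -/
def Solv [DecidableEq α] (c : α → α → ZMod 2) (K : Finset α → Prop) (d : ℕ) : Prop :=
  Coh K d (pw c) (fun _ => 0)

/-- The complex of the balanced subsets of `A`. -/
def KB (c : α → α → ZMod 2) (A : Finset α) (S : Finset α) : Prop := S ⊆ A ∧ Bal c S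

/-- The complex generated by a family `Z` of finite sets. -/
def KC (Z : Finset (Finset α)) (S : Finset α) : Prop := ∃ σ ∈ Z, S ⊆ σ

/-- `Ind c A d`: the `d`-th power of the class of `c` does not vanish on the balanced subsets of
`A` (for `d = 0`: the set `A` is not empty). -/
def Ind [DecidableEq α] (c : α → α → ZMod 2) (A : Finset α) : ℕ → Prop
  | 0 => A.Nonempty
  | d + 1 => ¬ Solv c (KB c A) (d + 1)

/-- The cone operator with fuel `n` (the length of the list `t`): the value of `g` on the chain
obtained by the recursion `R t = v t * R (∂ t)`. -/
def Rop (v : List α → α) : ℕ → List α → (List α → ZMod 2) → ZMod 2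
  | 0, _, g => g []
  | n + 1, t, g => del (fun u => Rop v n u (fun m => g (v t :: m))) t

/-- The lists occurring in the chain `R t`. -/
def RSup (v : List α → α) : ℕ → List α → List α → Prop
  | 0, _, m => m = []
  | n + 1, t, m => ∃ i < t.length, ∃ m', m = v t :: m' ∧ RSup v n (t.eraseIdx i) m'

end RPT
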