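import Pool.Agent.Helper94.RP.Defs

namespace RPT

open Finset

variable {α : Type*}

theorem del_nil (g : List α → ZMod 2) : del g [] = 0 := rfl

theorem del_cons (g : List α → ZMod 2) (a : α) (l : List α) :
    del g (a :: l) = g l + del (fun m => g (a :: m)) l := rfl

theorem add_self2 (x : ZMod 2) : x + x = 0 := CharTwo.add_self_eq_zero x

theorem del_eq_sum (g : List α → ZMod 2) (l : List α) :
    del g l = ∑ i ∈ range l.length, g (l.eraseIdx i) := by
  induction l generalizing g with
  | nil => simp [del]
  | cons a l ih =>
    rw [del_cons, ih, List.length_cons, Finset.sum_range_succ', add_comm]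
    simp

theorem del_congr {f g : List α → ZMod 2} {l : List α}
    (h : ∀ i < l.length, f (l.eraseIdx i) = g (l.eraseIdx i)) : del f l = del g l := by
  rw [del_eq_sum, del_eq_sum]
  exact Finset.sum_congr rfl fun i hi => h i (Finset.mem_range.mp hi)

theorem del_eq_zero {g : List α → ZMod 2} {l : List α}
    (h : ∀ i < l.length, g (l.eraseIdx i) = 0) : del g l = 0 := by
  rw [del_eq_sum]
  exact Finset.sum_eq_zero fun i hi => h i (Finset.mem_range.mp hi)

theorem del_zero (l : List α) : del (fun _ : List α => (0 : ZMod 2)) l = 0 := by
  simp [del_eq_sum]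

theorem del_add (f g : List α → ZMod 2) (l : List α) :
    del (fun m => f m + g m) l = del f l + del g l := by
  simp [del_eq_sum, Finset.sum_add_distrib]

theorem del_mul (k : ZMod 2) (f : List α → ZMod 2) (l : List α) :
    del (fun m => k * f m) l = k * del f l := by
  simp [del_eq_sum, Finset.mul_sum]

theorem del_sum {ι : Type*} (s : Finset ι) (f : ι → List α → ZMod 2) (l : List α) :
    del (fun m => ∑ i ∈ s, f i m) l = ∑ i ∈ s, del (f i) l := by
  simp only [del_eq_sum]
  rw [Finset.sum_comm]

theorem del_del (g : List α → ZMod 2) (l : List α) : del (del g) l = 0 := by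
  induction l generalizing g with
  | nil => rfl
  | cons a l ih =>
    have h1 : del (del g) (a :: l) = del g l + del (fun m => del g (a :: m)) l := rfl
    have h2 : (fun m => del g (a :: m)) =
        (fun m => g m + del (fun m' => g (a :: m')) m) := rfl
    have h3 : del (fun m => del (fun m' => g (a :: m')) m) l = 0 := ih (fun m' => g (a :: m'))
    have h4 : del (fun m => g m + del (fun m' => g (a :: m')) m) l =
        del g l + del (fun m => del (fun m' => g (a :: m')) m) l := del_add _ _ _
    rw [h1, h2, h4, h3, add_zero]
    exact add_self2 _

theorem del_map {β : Type*} (φ : α → β) (g : List β → ZMod 2) (l : List α) :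
    del (fun m => g (m.map φ)) l = del g (l.map φ) := by
  induction l generalizing g with
  | nil => rfl
  | cons a l ih =>
    rw [del_cons, List.map_cons, del_cons]
    have := ih (fun m => g (φ a :: m))
    simp only [List.map_cons]
    rw [this]

end RPT
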