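import Pool.Agent.Helper95.RP.St

/-!
# Project RP, module BA: balanced assignment
-/

set_option autoImplicit false

namespace Pool.Agent.Helper94.RP

open Pool.Agent.Helper95.RP Finset
open scoped Classical

/-- number of the `i < Z` in the class of `x` -/
def cnt (m Z x : ℕ) : ℕ := (Z + (m - 1 - x)) / m

theorem sum_div (m Z : ℕ) (hm : 1 ≤ m) : ∑ x ∈ range m, (Z + x) / m = Z := by
  induction Z with
  | zero =>
    refine Finset.sum_eq_zero fun x hx => ?_
    rw [zero_add]
    exact Nat.div_eq_of_lt (mem_range.1 hx)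
  | succ Z ih =>
    have h1 := Finset.sum_range_succ (fun x => (Z + x) / m) m
    have h2 := Finset.sum_range_succ' (fun x => (Z + x) / m) m
    have h3 : (Z + m) / m = Z / m + 1 := Nat.add_div_right Z hm
    simp only [add_zero] at h2
    have h4 : ∀ x, (Z + 1 + x) / m = (Z + (x + 1)) / m := fun x => by congr 1; ring
    simp only [h4]
    rw [h3] at h1
    omega

theorem sum_cnt (m Z : ℕ) (hm : 1 ≤ m) : ∑ x ∈ range m, cnt m Z x = Z := by
  have h := Finset.sum_range_reflect (fun x => (Z + x) / m) m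
  rw [sum_div m Z hm] at h
  exact h

theorem cnt_mono (m Z z x : ℕ) : cnt m Z x ≤ cnt m (Z + z) x :=
  Nat.div_le_div_right (by omega)

theorem cnt_bd (m Z z x : ℕ) (hm : 1 ≤ m) :
    z / m ≤ cnt m (Z + z) x - cnt m Z x ∧ cnt m (Z + z) x - cnt m Z x ≤ z / m + 1 := by
  unfold cnt
  have e : Z + z + (m - 1 - x) = (Z + (m - 1 - x)) + z := by omega
  rw [e, Nat.add_div (by omega : 0 < m)]
  generalize (Z + (m - 1 - x)) / m = P
  generalize z / m = Q
  split_ifs <;> constructor <;> omega

theorem main (m : ℕ) (hm : 1 ≤ m) : ∀ (N : ℕ) (z : Fin N → ℕ), ∃ a : Fin N → ℕ → ℕ,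
    (∀ v, ∑ x ∈ range m, a v x = z v) ∧
    (∀ v, ∀ x ∈ range m, ∀ y ∈ range m, a v x ≤ a v y + 1) ∧
    (∀ x ∈ range m, ∑ v, a v x = cnt m (∑ v, z v) x) := by
  intro N
  induction N with
  | zero =>
    intro z
    refine ⟨fun _ _ => 0, fun v => v.elim0, fun v => v.elim0, fun x hx => ?_⟩
    have : m - 1 - x < m := by omega
    simp [cnt, Nat.div_eq_of_lt this]
  | succ N ih =>
    intro z
    obtain ⟨a, h1, h2, h3⟩ := ih (fun v => z v.castSucc)
    set Z := ∑ v : Fin N, z v.castSucc with hZ
    refine ⟨Fin.snoc a (fun x => cnt m (Z + z (Fin.last N)) x - cnt m Z x), ?_, ?_, ?_⟩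
    · intro v
      refine Fin.lastCases ?_ (fun v => ?_) v
      · simp only [Fin.snoc_last]
        have e1 := sum_cnt m Z hm
        have e2 := sum_cnt m (Z + z (Fin.last N)) hm
        rw [Finset.sum_tsub_distrib _ (fun x _ => cnt_mono m Z _ x), e1, e2]
        omega
      · simp only [Fin.snoc_castSucc]
        exact h1 v
    · intro v
      refine Fin.lastCases ?_ (fun v => ?_) v
      · intro x _ y _
        simp only [Fin.snoc_last]
        have := cnt_bd m Z (z (Fin.last N)) x hm
        have := cnt_bd m Z (z (Fin.last N)) y hm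
        omega
      · intro x hx y hy
        simp only [Fin.snoc_castSucc]
        exact h2 v x hx y hy
    · intro x hx
      rw [Fin.sum_univ_castSucc, Fin.sum_univ_castSucc]
      simp only [Fin.snoc_castSucc, Fin.snoc_last]
      rw [h3 x hx, ← hZ]
      have := cnt_mono m Z (z (Fin.last N)) x
      omega

theorem hBA : BA := by
  intro N m z hm
  obtain ⟨a, h1, h2, h3⟩ := main m hm N z
  refine ⟨a, h1, h2, ?_⟩
  intro D D' hD hD' x hx
  rw [h3 x hx]
  constructor
  · rw [cnt, Nat.le_div_iff_mul_le (by omega : 0 < m)]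
    omega
  · rw [cnt]
    have : (∑ v, z v + (m - 1 - x)) / m < D' + 1 := by
      rw [Nat.div_lt_iff_lt_mul (by omega : 0 < m)]
      have : (D' + 1) * m = D' * m + m := by ring
      omega
    omega

end Pool.Agent.Helper94.RP
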